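import Pool.Agent.Q17.WR.Stm
import Pool.Agent.Q18.KRX.Top

/-! Job TOPX of project WR (helper17): normal subgroups and alternating sums. -/

set_option autoImplicit false

open scoped Classical

noncomputable section

namespace Pool.Agent.Q92.WR

open Pool.Agent.Y63.KR Pool.Agent.Q18.KRX Pool.Agent.Q17.WR

section

variable {α : Type*} [PartialOrder α]

/-- the chains in `X` -/
def Ch (X : Finset α) : Finset (Finset α) :=
  X.powerset.filter (fun σ : Finset α => IsChain (· ≤ ·) (σ : Set α))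

theorem mem_Ch {X σ : Finset α} : σ ∈ Ch X ↔ σ ⊆ X ∧ IsChain (· ≤ ·) (σ : Set α) := by
  unfold Ch
  rw [Finset.mem_filter, Finset.mem_powerset]

theorem E_def (X : Finset α) : E X = ∑ σ ∈ Ch X, (-1) ^ σ.card := rfl

/-- splitting the chains along a lower set -/
theorem split (X Y : Finset α) (hYX : Y ⊆ X) (hY : ∀ y ∈ Y, ∀ x ∈ X, x ≤ y → x ∈ Y) :
    E X = ∑ σ ∈ Ch Y, (-1) ^ σ.card * E (X.filter (fun x => x ∉ Y ∧ ∀ q ∈ σ, q < x)) := by
  have h1 : ∀ τ ∈ Ch X, τ.filter (fun x => x ∈ Y) ∈ Ch Y := by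
    intro τ hτ
    obtain ⟨h2, h3⟩ := mem_Ch.1 hτ
    refine mem_Ch.2 ⟨fun x hx => (Finset.mem_filter.1 hx).2, h3.mono fun x hx => ?_⟩
    exact (Finset.mem_filter.1 (Finset.mem_coe.1 hx)).1
  rw [E_def, ← Finset.sum_fiberwise_of_maps_to h1 (fun τ => (-1 : ℤ) ^ τ.card)]
  refine Finset.sum_congr rfl fun σ hσ => ?_
  obtain ⟨hσY, hσc⟩ := mem_Ch.1 hσ
  rw [E_def, Finset.mul_sum]
  symm
  refine Finset.sum_bij (fun ρ _ => σ ∪ ρ) ?_ ?_ ?_ ?_
  · intro ρ hρ
    obtain ⟨hρX, hρc⟩ := mem_Ch.1 hρ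
    have hρ1 : ∀ x ∈ ρ, x ∈ X ∧ x ∉ Y ∧ ∀ q ∈ σ, q < x := fun x hx => Finset.mem_filter.1 (hρX hx)
    refine Finset.mem_filter.2 ⟨mem_Ch.2 ⟨?_, ?_⟩, ?_⟩
    · exact Finset.union_subset (hσY.trans hYX) fun x hx => (hρ1 x hx).1
    · rw [Finset.coe_union]
      rintro a (ha | ha) b (hb | hb) hab
      · exact hσc ha hb hab
      · exact Or.inl ((hρ1 b hb).2.2 a ha).le
      · exact Or.inr ((hρ1 a ha).2.2 b hb).le
      · exact hρc ha hb hab
    · ext x
      rw [Finset.mem_filter, Finset.mem_union]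
      constructor
      · rintro ⟨h | h, h2⟩
        · exact h
        · exact absurd h2 (hρ1 x h).2.1
      · intro h
        exact ⟨Or.inl h, hσY h⟩
  · intro ρ hρ ρ' hρ' h
    have key : ∀ ρ ρ' : Finset α, ρ ∈ Ch (X.filter (fun x => x ∉ Y ∧ ∀ q ∈ σ, q < x)) →
        σ ∪ ρ = σ ∪ ρ' → ρ ⊆ ρ' := by
      intro ρ ρ' hρ h x hx
      have h2 : x ∈ σ ∪ ρ' := h ▸ Finset.mem_union_right σ hx
      rcases Finset.mem_union.1 h2 with h3 | h3
      · exact absurd (hσY h3) (Finset.mem_filter.1 ((mem_Ch.1 hρ).1 hx)).2.1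
      · exact h3
    exact Finset.Subset.antisymm (key _ _ hρ h) (key _ _ hρ' h.symm)
  · intro τ hτ
    obtain ⟨h2, h3⟩ := Finset.mem_filter.1 hτ
    obtain ⟨hτX, hτc⟩ := mem_Ch.1 h2
    refine ⟨τ.filter (fun x => x ∉ Y), mem_Ch.2 ⟨fun x hx => ?_, hτc.mono fun x hx => ?_⟩, ?_⟩
    · obtain ⟨h4, h5⟩ := Finset.mem_filter.1 hx
      refine Finset.mem_filter.2 ⟨hτX h4, h5, fun q hq => ?_⟩
      have hq' : q ∈ τ := by
        rw [← h3] at hq
        exact (Finset.mem_filter.1 hq).1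
      have hne : q ≠ x := by
        rintro rfl
        exact h5 (hσY hq)
      rcases hτc.total (Finset.mem_coe.2 hq') (Finset.mem_coe.2 h4) with h6 | h6
      · exact lt_of_le_of_ne h6 hne
      · exact absurd (hY q (hσY hq) x (hτX h4) h6) h5
    · exact (Finset.mem_filter.1 (Finset.mem_coe.1 hx)).1
    · rw [← h3]
      exact Finset.filter_union_filter_not_eq _ _
  · intro ρ hρ
    have hd : Disjoint σ ρ := by
      rw [Finset.disjoint_left]
      intro x hx hx2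
      exact (Finset.mem_filter.1 ((mem_Ch.1 hρ).1 hx2)).2.1 (hσY hx)
    rw [Finset.card_union_of_disjoint hd, pow_add]

end

section

variable {p : ℕ} {Γ : Type} [Group Γ]

/-- from sets to finite sets of subgroups -/
theorem toE [Finite Γ] (K : Set Γ) (cond : Subgroup Γ → Prop) (f : Set (Subgroup Γ) → ℤ) :
    ∑ᶠ σ : {σ : Set (Subgroup Γ) // IsPChain p σ}, (-1 : ℤ) ^ σ.1.ncard *
      (if (∀ P ∈ σ.1, cond P) ∧ Fx K σ.1 then f σ.1 else 0) =
    ∑ σ ∈ Ch ((FP p K).filter cond), (-1) ^ σ.card * f (σ : Set (Subgroup Γ)) := by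
  have h0 : Fintype (Set (Subgroup Γ)) := Fintype.ofFinite _
  have h1 : Fintype {σ : Set (Subgroup Γ) // IsPChain p σ} := Fintype.ofFinite _
  rw [finsum_eq_sum_of_fintype]
  have e1 : ∀ σ : {σ : Set (Subgroup Γ) // IsPChain p σ},
      (-1 : ℤ) ^ σ.1.ncard * (if (∀ P ∈ σ.1, cond P) ∧ Fx K σ.1 then f σ.1 else 0) =
      if (∀ P ∈ σ.1, cond P) ∧ Fx K σ.1 then (-1 : ℤ) ^ σ.1.ncard * f σ.1 else 0 := by
    intro σ
    split_ifs <;> simp
  simp only [e1]
  rw [← Finset.sum_filter]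
  refine Finset.sum_bij (fun σ _ => (Set.toFinite σ.1).toFinset) ?_ ?_ ?_ ?_
  · intro σ hσ
    obtain ⟨h2, h3⟩ := (Finset.mem_filter.mp hσ).2
    refine mem_Ch.2 ⟨?_, ?_⟩
    · intro P hP
      have hP' : P ∈ σ.1 := (Set.Finite.mem_toFinset _).mp hP
      exact Finset.mem_filter.2
        ⟨mem_FP.mpr ⟨σ.2.isPGroup P hP', σ.2.ne_bot P hP', h3 P hP'⟩, h2 P hP'⟩
    · rw [Set.Finite.coe_toFinset]
      exact σ.2.chain
  · intro σ _ τ _ h
    apply Subtype.ext
    have := congrArg (fun s : Finset (Subgroup Γ) => (s : Set (Subgroup Γ))) h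
    simpa using this
  · intro τ hτ
    obtain ⟨h2, h3⟩ := mem_Ch.1 hτ
    have h4 : ∀ P ∈ τ, P ∈ FP p K ∧ cond P := fun P hP => Finset.mem_filter.1 (h2 hP)
    refine ⟨⟨(τ : Set (Subgroup Γ)), ⟨h3, fun P hP => (mem_FP.mp (h4 P hP).1).1,
      fun P hP => (mem_FP.mp (h4 P hP).1).2.1⟩⟩, ?_, ?_⟩
    · exact Finset.mem_filter.mpr ⟨Finset.mem_univ _, fun P hP => (h4 P hP).2,
        fun P hP => (mem_FP.mp (h4 P hP).1).2.2⟩
    · ext P
      simp
  · intro σ _
    rw [Set.ncard_eq_toFinset_card _ (Set.toFinite σ.1), Set.Finite.coe_toFinset]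

theorem WC_eq_E [Finite Γ] (C : Subgroup Γ) (K : Set Γ) :
    WC p C K = E ((FP p K).filter (fun P => P ≤ C)) := by
  have h := toE (p := p) K (fun P => P ≤ C) (fun _ => 1)
  unfold WC
  rw [h, E_def]
  simp only [mul_one]

/-- a nontrivial `p`-group normalised by a `p`-group has nontrivial fixed points -/
theorem fix_ne_bot [Fact p.Prime] [Finite Γ] {P L : Subgroup Γ} (hP : IsPGroup p P)
    (hL : IsPGroup p L) (hL1 : L ≠ ⊥) (hPL : ∀ x ∈ P, conjSub x L = L) :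
    L ⊓ Subgroup.centralizer (P : Set Γ) ≠ ⊥ := by
  have hconj : ∀ x ∈ P, ∀ y ∈ L, x * y * x⁻¹ ∈ L := by
    intro x hx y hy
    have := conj_mem_conjSub (g := x) hy
    rwa [hPL x hx] at this
  let _ : MulAction P L :=
    { smul := fun x y => ⟨(x : Γ) * y * (x : Γ)⁻¹, hconj x x.2 y y.2⟩
      one_smul := fun y => Subtype.ext (by
        change (1 : Γ) * y * (1 : Γ)⁻¹ = y
        group)
      mul_smul := fun x x' y => Subtype.ext (by
        change ((x : Γ) * x') * y * ((x : Γ) * x')⁻¹ = x * (x' * y * (x' : Γ)⁻¹) * (x : Γ)⁻¹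
        group) }
  have hsm : ∀ (x : P) (y : L), ((x • y : L) : Γ) = (x : Γ) * y * (x : Γ)⁻¹ := fun _ _ => rfl
  have hdvd : p ∣ Nat.card L := by
    obtain ⟨n, hn⟩ := IsPGroup.iff_card.1 hL
    rw [hn]
    rcases Nat.eq_zero_or_pos n with h | h
    · exfalso
      apply hL1
      rw [h, pow_zero] at hn
      exact Subgroup.card_eq_one.1 hn
    · exact dvd_pow_self p (by omega)
  have h1 : (1 : L) ∈ MulAction.fixedPoints P L := by
    intro x
    apply Subtype.ext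
    rw [hsm]
    change (x : Γ) * 1 * (x : Γ)⁻¹ = 1
    group
  obtain ⟨b, hb, hb1⟩ := hP.exists_fixed_point_of_prime_dvd_card_of_fixed_point L hdvd h1
  intro h
  apply hb1
  apply Subtype.ext
  have h2 : (b : Γ) ∈ L ⊓ Subgroup.centralizer (P : Set Γ) := by
    refine ⟨b.2, Subgroup.mem_centralizer_iff.2 ?_⟩
    intro x hx
    have h3 := congrArg Subtype.val (hb ⟨x, hx⟩)
    rw [hsm] at h3
    change x * (b : Γ) * x⁻¹ = b at h3
    rw [mul_inv_eq_iff_eq_mul] at h3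
    exact h3
  rw [h, Subgroup.mem_bot] at h2
  rw [h2]
  rfl

theorem conjSub_centralizer {x : Γ} {P : Subgroup Γ} (h : conjSub x P = P) :
    conjSub x (Subgroup.centralizer (P : Set Γ)) = Subgroup.centralizer (P : Set Γ) := by
  have hx1 : ∀ q ∈ P, x * q * x⁻¹ ∈ P := by
    intro q hq
    rw [← h]
    exact conj_mem_conjSub hq
  have hx2 : ∀ q ∈ P, x⁻¹ * q * x ∈ P := by
    intro q hq
    rw [← h] at hq
    exact mem_conjSub.1 hq
  ext y
  rw [mem_conjSub, Subgroup.mem_centralizer_iff, Subgroup.mem_centralizer_iff]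
  constructor
  · intro hy q hq
    have e := hy _ (hx2 q hq)
    calc q * y = x * ((x⁻¹ * q * x) * (x⁻¹ * y * x)) * x⁻¹ := by group
      _ = y * q := by rw [e]; group
  · intro hy q hq
    have e := hy _ (hx1 q hq)
    calc q * (x⁻¹ * y * x) = x⁻¹ * ((x * q * x⁻¹) * y) * x := by group
      _ = x⁻¹ * y * x * q := by rw [e]; group

/-- the modular law -/
theorem modular {M P L : Subgroup Γ} (hPM : P ⊓ M = ⊥) (hLM : L ≤ M)
    (hPL : P ≤ Subgroup.normalizer (L : Set Γ)) : (L ⊔ P) ⊓ M = L := by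
  apply le_antisymm
  · rintro x ⟨hx, hxM⟩
    rw [sup_comm] at hx
    obtain ⟨a, ha, u, hu, rfl⟩ := (mem_sup_iff hPL).1 hx
    have h1 : a ∈ P ⊓ M := by
      refine ⟨ha, ?_⟩
      have := M.mul_mem hxM (M.inv_mem (hLM hu))
      rwa [mul_inv_cancel_right] at this
    rw [hPM, Subgroup.mem_bot] at h1
    rw [h1, one_mul]
    exact hu
  · exact le_inf le_sup_left hLM

theorem main [Fact p.Prime] [Finite Γ] (M : Subgroup Γ) [M.Normal] (K : Set Γ) (P : Subgroup Γ)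
    (hP : IsPGroup p P) (hPK : ∀ x ∈ K, conjSub x P = P) (hPM : P ⊓ M = ⊥) :
    E ((FP p K).filter (fun R => R ⊓ M ≠ ⊥ ∧ P ≤ R)) =
      E ((FP p K).filter (fun R => R ≤ M ⊓ Subgroup.centralizer (P : Set Γ))) := by
  have hinfr : ∀ R : Subgroup Γ, P ≤ R → ∀ x ∈ P, conjSub x (R ⊓ M) = R ⊓ M := by
    intro R hR x hx
    rw [conjSub_inf, conjSub_normal x M, conjSub_of_mem x R (hR hx)]
  have hrle : ∀ R : Subgroup Γ, P ≤ R → (R ⊓ M) ⊔ P ≤ R := fun R hR => sup_le inf_le_left hR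
  have hrM : ∀ R : Subgroup Γ, P ≤ R → ((R ⊓ M) ⊔ P) ⊓ M = R ⊓ M := by
    intro R hR
    exact le_antisymm (inf_le_inf_right M (hrle R hR)) (le_inf le_sup_left inf_le_right)
  have hPC : ∀ x ∈ P, conjSub x P = P := fun x hx => conjSub_of_mem x P hx
  -- first step
  have step1 : E ((FP p K).filter (fun R => R ⊓ M ≠ ⊥ ∧ P ≤ R)) =
      E (((FP p K).filter (fun R => R ⊓ M ≠ ⊥ ∧ P ≤ R)).filter
        (fun R => (R ⊓ M) ⊔ P = R)) := by
    refine E_retract (fun R => (R ⊓ M) ⊔ P) _ _ rfl ?_ ?_ ?_ ?_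
    · intro R hR
      obtain ⟨h1, h2, h3⟩ := Finset.mem_filter.1 hR
      obtain ⟨h4, h5, h6⟩ := mem_FP.1 h1
      refine Finset.mem_filter.2 ⟨mem_FP.2 ⟨h4.to_le (hrle R h3), ?_, ?_⟩, ?_, le_sup_right⟩
      · intro h
        apply h2
        rw [← hrM R h3, h, bot_inf_eq]
      · intro x hx
        rw [conjSub_sup, conjSub_inf, conjSub_normal x M, h6 x hx, hPK x hx]
      · rw [hrM R h3]
        exact h2
    · intro R hR
      exact hrle R (Finset.mem_filter.1 hR).2.2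
    · intro R hR
      rw [hrM R (Finset.mem_filter.1 hR).2.2]
    · intro R _ R' _ h
      exact sup_le_sup_right (inf_le_inf_right M h) P
  -- second step
  have step2 : E (((FP p K).filter (fun R => R ⊓ M ≠ ⊥ ∧ P ≤ R)).filter
        (fun R => (R ⊓ M) ⊔ P = R)) =
      E ((FP p K).filter (fun L => L ≤ M ∧ ∀ x ∈ P, conjSub x L = L)) := by
    have hnorm : ∀ L : Subgroup Γ, (∀ x ∈ P, conjSub x L = L) →
        P ≤ Subgroup.normalizer (L : Set Γ) := fun L hL x hx => conjSub_eq_iff.1 (hL x hx)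
    rw [← E_image ((FP p K).filter (fun L => L ≤ M ∧ ∀ x ∈ P, conjSub x L = L))
      (fun L => L ⊔ P) ?_]
    · congr 1
      ext R
      simp only [Finset.mem_image, Finset.mem_filter]
      constructor
      · rintro ⟨⟨h1, h2, h3⟩, h4⟩
        obtain ⟨h5, h6, h7⟩ := mem_FP.1 h1
        refine ⟨R ⊓ M, ⟨mem_FP.2 ⟨h5.to_le inf_le_left, h2, fun x hx => ?_⟩, inf_le_right,
          hinfr R h3⟩, h4⟩
        rw [conjSub_inf, conjSub_normal x M, h7 x hx]
      · rintro ⟨L, ⟨h1, h2, h3⟩, rfl⟩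
        obtain ⟨h5, h6, h7⟩ := mem_FP.1 h1
        have hm := modular hPM h2 (hnorm L h3)
        refine ⟨⟨mem_FP.2 ⟨h5.to_sup_of_normal_left' hP (hnorm L h3), ?_, fun x hx => ?_⟩, ?_,
          le_sup_right⟩, ?_⟩
        · intro h
          exact h6 (le_bot_iff.1 (h ▸ le_sup_left))
        · rw [conjSub_sup, h7 x hx, hPK x hx]
        · rw [hm]
          exact h6
        · rw [hm]
    · intro L hL L' hL'
      obtain ⟨h1, h2, h3⟩ := Finset.mem_filter.1 hL
      obtain ⟨h1', h2', h3'⟩ := Finset.mem_filter.1 hL'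
      constructor
      · intro h
        rw [← modular hPM h2 (hnorm L h3), ← modular hPM h2' (hnorm L' h3')]
        exact inf_le_inf_right M h
      · intro h
        exact sup_le_sup_right h P
  -- third step
  have step3 : E ((FP p K).filter (fun L => L ≤ M ∧ ∀ x ∈ P, conjSub x L = L)) =
      E (((FP p K).filter (fun L => L ≤ M ∧ ∀ x ∈ P, conjSub x L = L)).filter
        (fun L => L ⊓ Subgroup.centralizer (P : Set Γ) = L)) := by
    refine E_retract (fun L => L ⊓ Subgroup.centralizer (P : Set Γ)) _ _ rfl ?_ ?_ ?_ ?_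
    · intro L hL
      obtain ⟨h1, h2, h3⟩ := Finset.mem_filter.1 hL
      obtain ⟨h5, h6, h7⟩ := mem_FP.1 h1
      refine Finset.mem_filter.2 ⟨mem_FP.2 ⟨h5.to_le inf_le_left, fix_ne_bot hP h5 h6 h3,
        fun x hx => ?_⟩, inf_le_left.trans h2, fun x hx => ?_⟩
      · rw [conjSub_inf, conjSub_centralizer (hPK x hx), h7 x hx]
      · rw [conjSub_inf, conjSub_centralizer (hPC x hx), h3 x hx]
    · intro L _
      exact inf_le_left
    · intro L _
      rw [inf_assoc, inf_idem]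
    · intro L _ L' _ h
      exact inf_le_inf_right _ h
  rw [step1, step2, step3]
  congr 1
  ext L
  simp only [Finset.mem_filter, inf_eq_left, le_inf_iff]
  constructor
  · rintro ⟨⟨h1, h2, -⟩, h3⟩
    exact ⟨h1, h2, h3⟩
  · rintro ⟨h1, h2, h3⟩
    refine ⟨⟨h1, h2, fun x hx => ?_⟩, h3⟩
    rw [conjSub_eq_iff, Subgroup.mem_normalizer_iff]
    intro y
    constructor
    · intro hy
      have e := Subgroup.mem_centralizer_iff.1 (h3 hy) x hx
      rw [e, mul_inv_cancel_right]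
      exact hy
    · intro hy
      have e := Subgroup.mem_centralizer_iff.1 (h3 hy) x hx
      have e2 : x * y = y * x := by
        have e3 : x * (x * y * x⁻¹) = x * y := by
          rw [e]; group
        have e4 := mul_left_cancel e3
        rw [mul_inv_eq_iff_eq_mul] at e4
        exact e4
      rw [e2, mul_inv_cancel_right] at hy
      exact hy

/-- the greatest member of a chain -/
theorem sSup_chain {σ : Finset (Subgroup Γ)} (hσ : IsChain (· ≤ ·) (σ : Set (Subgroup Γ))) :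
    sSup (σ : Set (Subgroup Γ)) = ⊥ ∨ sSup (σ : Set (Subgroup Γ)) ∈ σ := by
  rcases σ.eq_empty_or_nonempty with h | h
  · left
    rw [h, Finset.coe_empty, sSup_empty]
  · right
    obtain ⟨Q, hQ⟩ := σ.exists_maximal h
    have hgr : IsGreatest (σ : Set (Subgroup Γ)) Q := by
      refine ⟨Finset.mem_coe.2 hQ.1, fun P hP => ?_⟩
      rcases hσ.total hP (Finset.mem_coe.2 hQ.1) with h1 | h1
      · exact h1
      · exact hQ.2 (Finset.mem_coe.1 hP) h1
    rw [hgr.isLUB.sSup_eq]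
    exact hQ.1

end

theorem t_TOPX : S_TOPX := by
  intro p _ Γ _ _ M _ K
  rw [W_eq_E]
  have h := toE (p := p) K (fun P => P ⊓ M = ⊥)
    (fun σ => WC p (M ⊓ Subgroup.centralizer ((sSup σ : Subgroup Γ) : Set Γ)) K)
  rw [h, split (FP p K) ((FP p K).filter (fun P => P ⊓ M = ⊥)) (Finset.filter_subset _ _) ?_]
  · refine Finset.sum_congr rfl fun σ hσ => ?_
    obtain ⟨h1, h2⟩ := mem_Ch.1 hσ
    have h3 : ∀ P ∈ σ, P ∈ FP p K ∧ P ⊓ M = ⊥ := fun P hP => Finset.mem_filter.1 (h1 hP)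
    have h4 : IsPGroup p (sSup (σ : Set (Subgroup Γ)) : Subgroup Γ) ∧
        (∀ x ∈ K, conjSub x (sSup (σ : Set (Subgroup Γ))) = sSup (σ : Set (Subgroup Γ))) ∧
        sSup (σ : Set (Subgroup Γ)) ⊓ M = ⊥ := by
      rcases sSup_chain h2 with h5 | h5
      · rw [h5]
        refine ⟨IsPGroup.of_bot, fun x _ => Subgroup.map_bot _, bot_inf_eq M⟩
      · obtain ⟨h6, h7⟩ := h3 _ h5
        obtain ⟨h8, -, h9⟩ := mem_FP.1 h6
        exact ⟨h8, h9, h7⟩
    rw [WC_eq_E, ← main M K _ h4.1 h4.2.1 h4.2.2]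
    congr 2
    refine Finset.filter_congr fun R hR => ?_
    rw [Finset.mem_filter, not_and, sSup_le_iff]
    constructor
    · rintro ⟨h5, h6⟩
      exact ⟨h5 hR, fun Q hQ => (h6 Q (Finset.mem_coe.1 hQ)).le⟩
    · rintro ⟨h5, h6⟩
      refine ⟨fun _ => h5, fun Q hQ => lt_of_le_of_ne (h6 Q (Finset.mem_coe.2 hQ)) ?_⟩
      rintro rfl
      exact h5 (h3 Q hQ).2
  · intro P hP R hR hRP
    refine Finset.mem_filter.2 ⟨hR, ?_⟩
    rw [eq_bot_iff, ← (Finset.mem_filter.1 hP).2]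
    exact inf_le_inf_right M hRP

end Pool.Agent.Q92.WR
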