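import Pool.Agent.Q17.WR.Stm

/-! Job CNJ of project WR (helper17): `p`-subgroups of the wreath product which meet the base group
trivially. -/

set_option autoImplicit false

open scoped Classical

noncomputable section

namespace Pool.Agent.Q92.WR

open Pool.Agent.Y63.KR Pool.Agent.Q18.KRX Pool.Agent.Q17.WR

section

variable {G A Ω : Type} [Group G] [Group A] [MulAction A Ω]

theorem lm (g h : Wr G A Ω) (ω : Ω) : (g * h).left ω = g.left ω * h.left (g.right⁻¹ • ω) := rfl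

theorem mem_Bs {x : Wr G A Ω} : x ∈ Bs G A Ω ↔ x.right = 1 := Iff.rfl

theorem wr_ext {g h : Wr G A Ω} (h1 : ∀ ω, g.left ω = h.left ω) (h2 : g.right = h.right) : g = h :=
  SemidirectProduct.ext (funext h1) h2

/-- the first case -/
theorem case1 (P : Subgroup (Wr G A Ω)) (h0 : ∀ ω, ∀ g ∈ P, g.right • ω = ω → g.left ω = 1) :
    ∃ m ∈ Bs G A Ω, P = conjSub m (Jn G Ω (P.map SemidirectProduct.rightHom)) := by
  let s : Setoid Ω :=
    { r := fun ω ω' => ∃ g ∈ P, g.right • ω = ω'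
      iseqv :=
        { refl := fun ω => ⟨1, P.one_mem, one_smul A ω⟩
          symm := by
            rintro ω ω' ⟨g, hg, rfl⟩
            exact ⟨g⁻¹, P.inv_mem hg, by rw [SemidirectProduct.inv_right, inv_smul_smul]⟩
          trans := by
            rintro ω ω' ω'' ⟨g, hg, rfl⟩ ⟨h, hh, rfl⟩
            exact ⟨h * g, P.mul_mem hh hg, by rw [SemidirectProduct.mul_right, mul_smul]⟩ } }
  have hex : ∀ ω : Ω, ∃ g ∈ P, g.right • (Quotient.mk s ω).out = ω := fun ω =>
    Quotient.exact (Quotient.out_eq (Quotient.mk s ω))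
  choose g hg hg2 using hex
  have key : ∀ h ∈ P, ∀ ω, (g (h.right • ω)).left (h.right • ω) =
      h.left (h.right • ω) * (g ω).left ω := by
    intro h hh ω
    have hsr : s.r ω (h.right • ω) := ⟨h, hh, rfl⟩
    have hr : Quotient.mk s (h.right • ω) = Quotient.mk s ω := (Quotient.sound hsr).symm
    have e1 := hg2 (h.right • ω)
    have e2 := hg2 ω
    rw [hr] at e1
    have hk : (g (h.right • ω))⁻¹ * (h * g ω) ∈ P :=
      P.mul_mem (P.inv_mem (hg _)) (P.mul_mem hh (hg _))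
    have hk2 : ((g (h.right • ω))⁻¹ * (h * g ω)).right • (Quotient.mk s ω).out =
        (Quotient.mk s ω).out := by
      rw [SemidirectProduct.mul_right, SemidirectProduct.mul_right, SemidirectProduct.inv_right,
        mul_smul, mul_smul, e2, inv_smul_eq_iff, e1]
    have hk3 := h0 _ _ hk hk2
    have e3 : h * g ω = g (h.right • ω) * ((g (h.right • ω))⁻¹ * (h * g ω)) := by group
    have e4 := congrArg (fun x : Wr G A Ω => x.left (h.right • ω)) e3
    change (h * g ω).left (h.right • ω) =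
      (g (h.right • ω) * ((g (h.right • ω))⁻¹ * (h * g ω))).left (h.right • ω) at e4
    have e5 : (g (h.right • ω)).right⁻¹ • (h.right • ω) = (Quotient.mk s ω).out := by
      rw [inv_smul_eq_iff, e1]
    rw [lm h, lm (g (h.right • ω)), inv_smul_smul, e5, hk3, mul_one] at e4
    exact e4.symm
  have key2 : ∀ h ∈ P, h * SemidirectProduct.inl (fun ω => (g ω).left ω) =
      SemidirectProduct.inl (fun ω => (g ω).left ω) * SemidirectProduct.inr h.right := by
    intro h hh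
    refine wr_ext (fun ω => ?_) ?_
    · rw [lm, lm]
      have e := key h hh (h.right⁻¹ • ω)
      rw [smul_inv_smul] at e
      simp only [SemidirectProduct.left_inl, SemidirectProduct.left_inr, Pi.one_apply, mul_one]
      exact e.symm
    · simp
  refine ⟨SemidirectProduct.inl (fun ω => (g ω).left ω), ?_, ?_⟩
  · exact SemidirectProduct.rightHom_inl _
  · ext x
    rw [mem_conjSub]
    constructor
    · intro hx
      refine ⟨x.right, ⟨x, hx, rfl⟩, ?_⟩
      rw [mul_assoc, key2 x hx, inv_mul_cancel_left]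
    · rintro ⟨b, ⟨h, hh, rfl⟩, hb⟩
      have hb' : SemidirectProduct.inr h.right = (SemidirectProduct.inl
          (fun ω => (g ω).left ω))⁻¹ * x * SemidirectProduct.inl (fun ω => (g ω).left ω) := hb
      have e := key2 h hh
      rw [hb', mul_assoc, mul_inv_cancel_left] at e
      rw [← mul_right_cancel e]
      exact hh

/-- the second case -/
theorem case2 {p : ℕ} [Fact p.Prime] [Finite G] (P : Subgroup (Wr G A Ω)) (hP : IsPGroup p P)
    (ω₀ : Ω) (g₀ : Wr G A Ω) (hg₀ : g₀ ∈ P) (h1 : g₀.right • ω₀ = ω₀) (h2 : g₀.left ω₀ ≠ 1) :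
    ∃ z : Wr G A Ω, z ∈ Bs G A Ω ∧ z ≠ 1 ∧ (∃ n : ℕ, z ^ p ^ n = 1) ∧ (∀ g ∈ P, g * z = z * g) ∧
      ∀ c ∈ Bs G A Ω, (∀ g ∈ P, g * c = c * g) → c * z = z * c := by
  have hfix : ∀ g : Wr G A Ω, g.right • ω₀ = ω₀ → ∀ h : Wr G A Ω,
      (g * h).left ω₀ = g.left ω₀ * h.left ω₀ := by
    intro g hg h
    have e : g.right⁻¹ • ω₀ = ω₀ := by rw [inv_smul_eq_iff, hg]
    rw [lm, e]
  let R : Subgroup G :=
    { carrier := {x | ∃ g ∈ P, g.right • ω₀ = ω₀ ∧ g.left ω₀ = x}
      one_mem' := ⟨1, P.one_mem, one_smul A ω₀, rfl⟩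
      mul_mem' := by
        rintro _ _ ⟨g, hg, hg2, rfl⟩ ⟨h, hh, hh2, rfl⟩
        refine ⟨g * h, P.mul_mem hg hh, ?_, hfix g hg2 h⟩
        rw [SemidirectProduct.mul_right, mul_smul, hh2, hg2]
      inv_mem' := by
        rintro _ ⟨g, hg, hg2, rfl⟩
        refine ⟨g⁻¹, P.inv_mem hg, ?_, ?_⟩
        · rw [SemidirectProduct.inv_right, inv_smul_eq_iff, hg2]
        · have e := hfix g hg2 g⁻¹
          rw [mul_inv_cancel] at e
          exact eq_inv_of_mul_eq_one_right e.symm }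
  have hRp : IsPGroup p R := by
    rintro ⟨_, g, hg, hg2, rfl⟩
    obtain ⟨k, hk⟩ := hP ⟨g, hg⟩
    have hk' : g ^ p ^ k = 1 := congrArg Subtype.val hk
    refine ⟨k, Subtype.ext ?_⟩
    have hpow : ∀ n : ℕ, (g ^ n).left ω₀ = (g.left ω₀) ^ n := by
      intro n
      induction n with
      | zero => rw [pow_zero, pow_zero]; rfl
      | succ n ih => rw [pow_succ', hfix g hg2, ih, pow_succ']
    change (g.left ω₀) ^ p ^ k = 1
    rw [← hpow, hk']
    rfl
  have hRn : Nontrivial R := ⟨⟨⟨g₀.left ω₀, g₀, hg₀, h1, rfl⟩, 1, fun h => h2 (congrArg Subtype.val h)⟩⟩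
  have hcn := hRp.center_nontrivial
  obtain ⟨⟨z, hz⟩, hz1⟩ := exists_ne (1 : Subgroup.center R)
  have hz1' : (z : G) ≠ 1 := by
    intro h
    apply hz1
    apply Subtype.ext
    exact Subtype.ext h
  have hzc : ∀ k ∈ P, k.right • ω₀ = ω₀ → k.left ω₀ * (z : G) = z * k.left ω₀ := by
    intro k hk hk2
    have e := Subgroup.mem_center_iff.1 hz ⟨k.left ω₀, k, hk, hk2, rfl⟩
    exact congrArg Subtype.val e
  obtain ⟨n, hn⟩ := hRp z
  have hn' : (z : G) ^ p ^ n = 1 := congrArg Subtype.val hn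
  obtain ⟨kz, hkz, hkz2, hkz3⟩ := z.2
  let m : Ω → G := fun ω => if h : ∃ g ∈ P, g.right • ω₀ = ω then
    (h.choose).left ω * z * ((h.choose).left ω)⁻¹ else 1
  have hm1 : ∀ g ∈ P, ∀ ω, g.right • ω₀ = ω → m ω = g.left ω * z * (g.left ω)⁻¹ := by
    intro g hg ω hω
    have h : ∃ g ∈ P, g.right • ω₀ = ω := ⟨g, hg, hω⟩
    have e0 : m ω = (h.choose).left ω * z * ((h.choose).left ω)⁻¹ := dif_pos h
    obtain ⟨hc1, hc2⟩ := h.choose_spec
    rw [e0]
    generalize h.choose = g' at hc1 hc2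
    have hk : g⁻¹ * g' ∈ P := P.mul_mem (P.inv_mem hg) hc1
    have hk2 : (g⁻¹ * g').right • ω₀ = ω₀ := by
      rw [SemidirectProduct.mul_right, SemidirectProduct.inv_right, mul_smul, hc2, inv_smul_eq_iff,
        hω]
    have e1 : g'.left ω = g.left ω * (g⁻¹ * g').left ω₀ := by
      have e2 : g' = g * (g⁻¹ * g') := by group
      have e3 : g.right⁻¹ • ω = ω₀ := by rw [inv_smul_eq_iff, hω]
      conv_lhs => rw [e2]
      rw [lm, e3]
    have e4 := hzc _ hk hk2
    rw [e1, mul_inv_rev]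
    generalize (g⁻¹ * g').left ω₀ = r at e4
    calc g.left ω * r * z * (r⁻¹ * (g.left ω)⁻¹) = g.left ω * (r * z) * r⁻¹ * (g.left ω)⁻¹ := by
          group
      _ = g.left ω * z * (g.left ω)⁻¹ := by rw [e4]; group
  have hm2 : ∀ ω, (¬ ∃ g ∈ P, g.right • ω₀ = ω) → m ω = 1 := fun ω h => dif_neg h
  refine ⟨SemidirectProduct.inl m, SemidirectProduct.rightHom_inl _, ?_, ⟨n, ?_⟩, ?_, ?_⟩
  · intro h
    have e := congrArg (fun x : Wr G A Ω => x.left ω₀) h
    change m ω₀ = 1 at e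
    rw [hm1 1 P.one_mem ω₀ (one_smul A ω₀)] at e
    apply hz1'
    have e1 : (1 : Wr G A Ω).left ω₀ = 1 := rfl
    rw [e1] at e
    simpa using e
  · rw [← map_pow]
    have : m ^ p ^ n = 1 := by
      funext ω
      rw [Pi.pow_apply, Pi.one_apply]
      by_cases h : ∃ g ∈ P, g.right • ω₀ = ω
      · obtain ⟨g, hg, hω⟩ := h
        rw [hm1 g hg ω hω, conj_pow, hn']
        group
      · rw [hm2 ω h, one_pow]
    rw [this, map_one]
  · intro g hg
    refine wr_ext (fun ω => ?_) (by simp)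
    rw [lm, lm]
    simp only [SemidirectProduct.left_inl, SemidirectProduct.right_inl, inv_one, one_smul]
    by_cases h : ∃ k ∈ P, k.right • ω₀ = ω
    · obtain ⟨k, hk, hω⟩ := h
      have h3 : (g⁻¹ * k).right • ω₀ = g.right⁻¹ • ω := by
        rw [SemidirectProduct.mul_right, SemidirectProduct.inv_right, mul_smul, hω]
      have e1 := hm1 _ (P.mul_mem (P.inv_mem hg) hk) _ h3
      have e2 : k.left ω = g.left ω * (g⁻¹ * k).left (g.right⁻¹ • ω) := by
        rw [← lm]
        group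
      rw [e1, hm1 k hk ω hω, e2]
      group
    · have h' : ¬ ∃ k ∈ P, k.right • ω₀ = g.right⁻¹ • ω := by
        rintro ⟨k, hk, hk2⟩
        apply h
        refine ⟨g * k, P.mul_mem hg hk, ?_⟩
        rw [SemidirectProduct.mul_right, mul_smul, hk2, smul_inv_smul]
      rw [hm2 ω h, hm2 _ h', mul_one, one_mul]
  · intro c hc hcg
    have hc' : c.right = 1 := hc
    have hcl : ∀ g ∈ P, ∀ ω, c.left ω * g.left ω = g.left ω * c.left (g.right⁻¹ • ω) := by
      intro g hg ω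
      have e := congrArg (fun x : Wr G A Ω => x.left ω) (hcg g hg)
      change (g * c).left ω = (c * g).left ω at e
      rw [lm, lm, hc', inv_one, one_smul] at e
      exact e.symm
    refine wr_ext (fun ω => ?_) (by simp)
    rw [lm, lm, hc']
    simp only [SemidirectProduct.left_inl, SemidirectProduct.right_inl, inv_one, one_smul]
    by_cases h : ∃ k ∈ P, k.right • ω₀ = ω
    · obtain ⟨k, hk, hω⟩ := h
      have e1 := hcl k hk ω
      have e2 : k.right⁻¹ • ω = ω₀ := by rw [inv_smul_eq_iff, hω]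
      rw [e2] at e1
      have e3 := hcl kz hkz ω₀
      have e4 : kz.right⁻¹ • ω₀ = ω₀ := by rw [inv_smul_eq_iff, hkz2]
      rw [e4, hkz3] at e3
      have e5 : c.left ω = k.left ω * c.left ω₀ * (k.left ω)⁻¹ := by
        rw [← e1]; group
      rw [e5, hm1 k hk ω hω]
      calc k.left ω * c.left ω₀ * (k.left ω)⁻¹ * (k.left ω * z * (k.left ω)⁻¹) =
            k.left ω * (c.left ω₀ * z) * (k.left ω)⁻¹ := by group
        _ = _ := by rw [e3]; group
    · rw [hm2 ω h, mul_one, one_mul]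

end

theorem t_CNJ : S_CNJ := by
  intro p _ G A Ω _ _ _ _ _ _ P hP hPB
  by_cases h0 : ∀ ω : Ω, ∀ g ∈ P, g.right • ω = ω → g.left ω = 1
  · exact Or.inl (case1 P h0)
  right
  push Not at h0
  obtain ⟨ω₀, g₀, hg₀, h1, h2⟩ := h0
  obtain ⟨z, hzB, hz1, ⟨n, hzn⟩, hzP, hzC⟩ := case2 P hP ω₀ g₀ hg₀ h1 h2
  have hmemC : ∀ x : Wr G A Ω, x ∈ Subgroup.centralizer (P : Set (Wr G A Ω)) ↔
      ∀ g ∈ P, g * x = x * g := fun x => Subgroup.mem_centralizer_iff
  let Z : Subgroup (Wr G A Ω) :=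
    { carrier := {x | x ∈ Bs G A Ω ∧ (∀ g ∈ P, g * x = x * g) ∧
        (∀ c ∈ Bs G A Ω, (∀ g ∈ P, g * c = c * g) → c * x = x * c) ∧ ∃ k : ℕ, x ^ p ^ k = 1}
      one_mem' := ⟨Subgroup.one_mem _, fun g _ => by rw [one_mul, mul_one],
        fun c _ _ => by rw [one_mul, mul_one], 0, one_pow _⟩
      mul_mem' := by
        rintro x y ⟨hx1, hx2, hx3, kx, hx4⟩ ⟨hy1, hy2, hy3, ky, hy4⟩
        refine ⟨Subgroup.mul_mem _ hx1 hy1, fun g hg => ?_, fun c hc hc2 => ?_, kx + ky, ?_⟩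
        · rw [← mul_assoc, hx2 g hg, mul_assoc, hy2 g hg, mul_assoc]
        · rw [← mul_assoc, hx3 c hc hc2, mul_assoc, hy3 c hc hc2, mul_assoc]
        · have hcomm : Commute x y := hy3 x hx1 hx2
          rw [hcomm.mul_pow, pow_add, pow_mul, hx4, one_pow, one_mul, mul_comm (p ^ kx), pow_mul,
            hy4, one_pow]
      inv_mem' := by
        rintro x ⟨hx1, hx2, hx3, kx, hx4⟩
        refine ⟨Subgroup.inv_mem _ hx1, fun g hg => ?_, fun c hc hc2 => ?_, kx, ?_⟩
        · have e : Commute g x := hx2 g hg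
          exact e.inv_right
        · have e : Commute c x := hx3 c hc hc2
          exact e.inv_right
        · rw [inv_pow, hx4, inv_one] }
  have hZmem : ∀ x, x ∈ Z ↔ (x ∈ Bs G A Ω ∧ (∀ g ∈ P, g * x = x * g) ∧
        (∀ c ∈ Bs G A Ω, (∀ g ∈ P, g * c = c * g) → c * x = x * c) ∧ ∃ k : ℕ, x ^ p ^ k = 1) :=
    fun x => Iff.rfl
  refine ⟨Z, ?_, ?_, ?_, ?_, ?_⟩
  · rintro ⟨x, hx⟩
    obtain ⟨-, -, -, k, hk⟩ := (hZmem x).1 hx
    exact ⟨k, Subtype.ext hk⟩
  · intro h
    apply hz1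
    have : z ∈ Z := ⟨hzB, hzP, hzC, n, hzn⟩
    rw [h, Subgroup.mem_bot] at this
    exact this
  · intro x hx
    obtain ⟨hx1, hx2, -⟩ := (hZmem x).1 hx
    exact ⟨hx1, (hmemC x).2 hx2⟩
  · intro c hc x hx
    obtain ⟨-, -, hx3, -⟩ := (hZmem x).1 hx
    exact hx3 c hc.1 ((hmemC c).1 hc.2)
  · have hstep : ∀ x : Wr G A Ω, (∀ q ∈ P, x * q * x⁻¹ ∈ P) → (∀ q ∈ P, x⁻¹ * q * x ∈ P) →
        ∀ y ∈ Z, x * y * x⁻¹ ∈ Z := by
      intro x hx hx' y hy
      obtain ⟨hy1, hy2, hy3, k, hy4⟩ := (hZmem y).1 hy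
      have hB : (Bs G A Ω).Normal := inferInstance
      refine (hZmem _).2 ⟨hB.conj_mem y hy1 x, fun g hg => ?_, fun c hc hc2 => ?_, k, ?_⟩
      · have e := hy2 _ (hx' g hg)
        calc g * (x * y * x⁻¹) = x * ((x⁻¹ * g * x) * y) * x⁻¹ := by group
          _ = x * y * x⁻¹ * g := by rw [e]; group
      · have hc3 : x⁻¹ * c * x ∈ Bs G A Ω := by
          have := hB.conj_mem c hc x⁻¹
          rwa [inv_inv] at this
        have hc4 : ∀ g ∈ P, g * (x⁻¹ * c * x) = x⁻¹ * c * x * g := by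
          intro g hg
          have e := hc2 _ (hx g hg)
          calc g * (x⁻¹ * c * x) = x⁻¹ * ((x * g * x⁻¹) * c) * x := by group
            _ = x⁻¹ * c * x * g := by rw [e]; group
        have e := hy3 _ hc3 hc4
        calc c * (x * y * x⁻¹) = x * ((x⁻¹ * c * x) * y) * x⁻¹ := by group
          _ = x * y * x⁻¹ * c := by rw [e]; group
      · rw [conj_pow, hy4]
        group
    intro x hx
    have hx1 : ∀ q ∈ P, x * q * x⁻¹ ∈ P := by
      intro q hq
      rw [← hx]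
      exact conj_mem_conjSub hq
    have hx2 : ∀ q ∈ P, x⁻¹ * q * x ∈ P := by
      intro q hq
      rw [← hx] at hq
      exact mem_conjSub.1 hq
    ext y
    rw [mem_conjSub]
    constructor
    · intro hy
      have := hstep x hx1 hx2 _ hy
      have e : x * (x⁻¹ * y * x) * x⁻¹ = y := by group
      rwa [e] at this
    · intro hy
      have := hstep x⁻¹ (by simpa using hx2) (by simpa using hx1) y hy
      rwa [inv_inv] at this

end Pool.Agent.Q92.WR
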